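import Pool.Agent.H21.BS.TB

/-!
# Correlations on the subwindows (SUB)
-/

set_option autoImplicit false

open Finset Pool.Agent.H6.N4D

namespace Pool.Agent.H17.BS

open Pool.Agent.H21.BS

lemma sum_blocks (T M : ℕ) (g : ℕ → ℝ) :
    ∑ k ∈ range T, ∑ x ∈ range M, g (k * M + x) = ∑ z ∈ range (T * M), g z := by
  induction T with
  | zero => simp
  | succ T ih => rw [sum_range_succ, ih, Nat.succ_mul, sum_range_add]

lemma sum_sub_blocks (T M s : ℕ) (hT : 1 ≤ T) (g : ℕ → ℝ) (hg : ∀ z, 0 ≤ g z) :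
    ∑ k ∈ range T, ∑ x ∈ range (M - s), g (k * M + x) ≤ ∑ z ∈ range (T * M - s), g z := by
  classical
  let g' : ℕ → ℝ := fun z => if z < T * M - s then g z else 0
  have hg' : ∀ z, 0 ≤ g' z := fun z => by
    change 0 ≤ if z < T * M - s then g z else 0
    split_ifs
    · exact hg z
    · exact le_rfl
  calc ∑ k ∈ range T, ∑ x ∈ range (M - s), g (k * M + x)
      = ∑ k ∈ range T, ∑ x ∈ range (M - s), g' (k * M + x) := by
        refine sum_congr rfl fun k hk => sum_congr rfl fun x hx => ?_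
        rw [mem_range] at hk hx
        have h1 : (k + 1) * M ≤ T * M := Nat.mul_le_mul_right M hk
        rw [Nat.succ_mul] at h1
        change _ = if k * M + x < T * M - s then g (k * M + x) else 0
        rw [if_pos (by omega)]
    _ ≤ ∑ k ∈ range T, ∑ x ∈ range M, g' (k * M + x) :=
        sum_le_sum fun k _ => sum_le_sum_of_subset_of_nonneg
          (range_subset_range.2 (Nat.sub_le _ _)) fun x _ _ => hg' _
    _ = ∑ z ∈ range (T * M), g' z := sum_blocks T M g'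
    _ = ∑ z ∈ range (T * M - s), g z := by
        symm
        rw [← sum_subset (range_subset_range.2 (Nat.sub_le (T * M) s))]
        · refine sum_congr rfl fun z hz => ?_
          change _ = if z < T * M - s then g z else 0
          rw [if_pos (mem_range.1 hz)]
        · intro z _ hz
          change (if z < T * M - s then g z else 0) = 0
          rw [if_neg (fun h => hz (mem_range.2 h))]

/-- Cauchy-Schwarz -/
lemma sum_sq_le (M N : ℕ) (h : ℕ → ℝ) (B : ℝ) (hMN : M ≤ N) (hB : 0 ≤ B)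
    (h4 : ∑ z ∈ range M, h z ^ 4 ≤ B * N) : ∑ z ∈ range M, h z ^ 2 ≤ N * Real.sqrt B := by
  have h1 : (∑ z ∈ range M, h z ^ 2) ^ 2 ≤ (M : ℝ) * ∑ z ∈ range M, (h z ^ 2) ^ 2 := by
    have := sq_sum_le_card_mul_sum_sq (s := range M) (f := fun z => h z ^ 2)
    rw [card_range] at this
    exact this
  have h2 : ∑ z ∈ range M, (h z ^ 2) ^ 2 = ∑ z ∈ range M, h z ^ 4 :=
    sum_congr rfl fun z _ => by ring
  have hM : (M : ℝ) ≤ N := by exact_mod_cast hMN
  have h3 : 0 ≤ ∑ z ∈ range M, h z ^ 4 := sum_nonneg fun z _ => by positivity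
  have h5 : (∑ z ∈ range M, h z ^ 2) ^ 2 ≤ ((N : ℝ) * Real.sqrt B) ^ 2 := by
    rw [mul_pow, Real.sq_sqrt hB]
    calc (∑ z ∈ range M, h z ^ 2) ^ 2 ≤ (M : ℝ) * ∑ z ∈ range M, h z ^ 4 := by rw [← h2]; exact h1
      _ ≤ N * (B * N) := mul_le_mul hM h4 h3 (by positivity)
      _ = (N : ℝ) ^ 2 * B := by ring
  exact (pow_le_pow_iff_left₀ (sum_nonneg fun z _ => by positivity) (by positivity)
    (by norm_num)).1 h5

theorem pf_SUB (hSB1 : T_SB1) (hSPX : T_SPX) (hM4 : T_M4) : T_SUB := by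
  intro W
  obtain ⟨C₁, hC₁, h₁⟩ := hSPX W
  refine ⟨2 * Real.sqrt (3 * C₁) + 120 * Real.sqrt (2000 * (4 + W) ^ 4), by positivity, ?_⟩
  intro P κ V s T θ w hok hs1 hsP hks hN hw
  have hs0 : (0 : ℝ) < s := by exact_mod_cast hs1
  have hN0 : V.N ≠ 0 := by
    intro h
    have := hok.k2
    rw [h, Nat.cast_zero, mul_zero] at this
    linarith
  have hT1 : 1 ≤ T := by
    rcases Nat.eq_zero_or_pos T with h | h
    · rw [h, zero_mul] at hN
      exact absurd hN hN0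
    · exact h
  have hss : s ≤ s ^ 2 := by
    rw [sq]
    exact Nat.le_mul_of_pos_left _ hs1
  have hsN : s ≤ V.N := by
    rw [hN]
    exact hss.trans (Nat.le_mul_of_pos_left _ hT1)
  have hNr : (V.N : ℝ) = T * (s : ℝ) ^ 2 := by
    rw [hN]
    push_cast
    rfl
  -- the short sums
  let H : ℕ → ℝ := fun z =>
    ‖(∑ y ∈ range s, V.om (V.a + z + y) * ee (-(θ (z / s ^ 2) * y))) / s‖
  have hH4 : ∑ z ∈ range (V.N - s), H z ^ 4 ≤ 3 * C₁ / s * V.N := by
    have h2 := h₁ P κ V s (fun z => θ (z / s ^ 2)) hok hs1 hsP hsN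
    refine h2.trans ?_
    have h3 : κ ≤ 1 / s := by
      rw [le_div_iff₀ hs0]
      exact hks
    have h4 : 1 / (P : ℝ) ≤ 1 / s := one_div_le_one_div_of_le hs0 (by exact_mod_cast hsP)
    have h5 : (1 / (s : ℝ) + κ + 1 / P) ≤ 3 / s := by
      have : 3 / (s : ℝ) = 1 / s + 1 / s + 1 / s := by ring
      rw [this]
      linarith
    calc C₁ * (1 / s + κ + 1 / P) * V.N ≤ C₁ * (3 / s) * V.N := by gcongr
      _ = 3 * C₁ / s * V.N := by ring
  have hH2 : ∑ z ∈ range (V.N - s), H z ^ 2 ≤ V.N * Real.sqrt (3 * C₁ / s) :=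
    sum_sq_le _ _ H _ (Nat.sub_le _ _) (by positivity) hH4
  have hO2 : ∑ z ∈ range V.N, ‖V.om (V.a + z)‖ ^ 2 ≤ V.N * Real.sqrt (2000 * (4 + W) ^ 4) :=
    sum_sq_le _ _ (fun z => ‖V.om (V.a + z)‖) _ le_rfl (by positivity) (hM4 W P κ V hok)
  -- one window
  have hk : ∀ k ∈ range T, ‖av (V.a + k * s ^ 2) (s ^ 2) fun n =>
      V.om n * starRingEnd ℂ (ee (θ k * n) * w k n)‖ ^ 2 ≤
      2 / (s : ℝ) ^ 2 * ∑ x ∈ range (s ^ 2 - s), H (k * s ^ 2 + x) ^ 2 +
      120 / (s : ℝ) * ((∑ x ∈ range (s ^ 2), ‖V.om (V.a + (k * s ^ 2 + x))‖ ^ 2) /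
        (s : ℝ) ^ 2) := by
    intro k hk
    have h2 := hSB1 (V.a + k * s ^ 2) s (θ k) V.om (w k) hs1 (hw k (mem_range.1 hk))
    refine h2.trans (le_of_eq ?_)
    congr 1
    · congr 1
      refine sum_congr rfl fun x hx => ?_
      change _ = ‖(∑ y ∈ range s, V.om (V.a + (k * s ^ 2 + x) + y) *
        ee (-(θ ((k * s ^ 2 + x) / s ^ 2) * y))) / s‖ ^ 2
      have hx' : x < s ^ 2 := by
        have := mem_range.1 hx
        omega
      have e : (k * s ^ 2 + x) / s ^ 2 = k := by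
        rw [mul_comm, Nat.mul_add_div (by positivity), Nat.div_eq_of_lt hx', add_zero]
      rw [e, add_assoc V.a]
    · congr 2
      refine sum_congr rfl fun x _ => ?_
      rw [add_assoc V.a]
  refine (sum_le_sum hk).trans ?_
  rw [sum_add_distrib, ← mul_sum, ← mul_sum, ← sum_div,
    sum_blocks T (s ^ 2) (fun z => ‖V.om (V.a + z)‖ ^ 2), ← hN]
  have hb := sum_sub_blocks T (s ^ 2) s hT1 (fun z => H z ^ 2) fun z => by positivity
  rw [← hN] at hb
  have hsq : Real.sqrt s ≤ s := by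
    rw [Real.sqrt_le_left hs0.le, sq]
    have : (1 : ℝ) ≤ s := by exact_mod_cast hs1
    nlinarith
  have hsq0 : 0 < Real.sqrt s := Real.sqrt_pos.2 hs0
  have p1 : 2 / (s : ℝ) ^ 2 * ∑ k ∈ range T, ∑ x ∈ range (s ^ 2 - s), H (k * s ^ 2 + x) ^ 2 ≤
      2 * Real.sqrt (3 * C₁) * T / Real.sqrt s := by
    calc 2 / (s : ℝ) ^ 2 * ∑ k ∈ range T, ∑ x ∈ range (s ^ 2 - s), H (k * s ^ 2 + x) ^ 2
        ≤ 2 / (s : ℝ) ^ 2 * (V.N * Real.sqrt (3 * C₁ / s)) :=
          mul_le_mul_of_nonneg_left (hb.trans hH2) (by positivity)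
      _ = 2 * Real.sqrt (3 * C₁) * T / Real.sqrt s := by
          rw [hNr, Real.sqrt_div (by positivity)]
          field_simp
  have p2 : 120 / (s : ℝ) * ((∑ z ∈ range V.N, ‖V.om (V.a + z)‖ ^ 2) / (s : ℝ) ^ 2) ≤
      120 * Real.sqrt (2000 * (4 + W) ^ 4) * T / Real.sqrt s := by
    calc 120 / (s : ℝ) * ((∑ z ∈ range V.N, ‖V.om (V.a + z)‖ ^ 2) / (s : ℝ) ^ 2)
        ≤ 120 / (s : ℝ) * ((V.N * Real.sqrt (2000 * (4 + W) ^ 4)) / (s : ℝ) ^ 2) := by gcongr
      _ = 120 * Real.sqrt (2000 * (4 + W) ^ 4) * T / s := by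
          rw [hNr]
          field_simp
      _ ≤ 120 * Real.sqrt (2000 * (4 + W) ^ 4) * T / Real.sqrt s := by gcongr
  calc _ ≤ 2 * Real.sqrt (3 * C₁) * T / Real.sqrt s +
        120 * Real.sqrt (2000 * (4 + W) ^ 4) * T / Real.sqrt s := add_le_add p1 p2
    _ = _ := by ring

end Pool.Agent.H17.BS
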